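import Mathlib

/-!
Values of a symmetric bimultiplicative map `β : G × G → B` into a group of exponent two:
from pairs to triples, and counting the values.
-/

namespace Pool.Agent.Q24.EQ

universe w v

variable {G : Type w} [CommGroup G] {B : Type v} [AddCommGroup B]

/-- the group generated by the values `β(a,b)`, `b ∈ G` -/
def VV (β : G → G → B) (a : G) : AddSubgroup B := AddSubgroup.closure (Set.range (β a))

/-- `C ∩ A` has index at most two in `C` -/
def Almost (A C : AddSubgroup B) : Prop := ∀ u ∈ C, ∀ v ∈ C, u ∈ A ∨ v ∈ A ∨ u + v ∈ A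

/-- the properties of `β` which are used -/
structure BiSym (β : G → G → B) : Prop where
  two : ∀ b : B, b + b = 0
  symm : ∀ a b, β a b = β b a
  mul : ∀ a b c, β a (b * c) = β a b + β a c

variable {β : G → G → B}

theorem BiSym.one (h : BiSym β) (a : G) : β a 1 = 0 := by
  have := h.mul a 1 1
  rw [mul_one] at this
  exact left_eq_add.1 this

theorem BiSym.mul' (h : BiSym β) (a b c : G) : β (a * b) c = β a c + β b c := by
  rw [h.symm, h.mul, h.symm c, h.symm c]

theorem BiSym.neg (h : BiSym β) (x : B) : -x = x := (neg_eq_iff_add_eq_zero.2 (h.two x))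

theorem BiSym.mem (h : BiSym β) {a : G} {t : B} : t ∈ VV β a ↔ ∃ b, β a b = t := by
  constructor
  · intro ht
    refine AddSubgroup.closure_induction (p := fun t _ => ∃ b, β a b = t) ?_ ?_ ?_ ?_ ht
    · rintro _ ⟨b, rfl⟩; exact ⟨b, rfl⟩
    · exact ⟨1, h.one a⟩
    · rintro _ _ _ _ ⟨b, rfl⟩ ⟨c, rfl⟩
      exact ⟨b * c, h.mul _ _ _⟩
    · rintro _ _ ⟨b, rfl⟩
      exact ⟨b, (h.neg _).symm⟩
  · rintro ⟨b, rfl⟩
    exact AddSubgroup.subset_closure ⟨b, rfl⟩

theorem BiSym.val (h : BiSym β) (a b : G) : β a b ∈ VV β a := h.mem.2 ⟨b, rfl⟩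

/-- from pairs to triples -/
theorem triple (h : BiSym β) {p : G} (hp : ∀ d, Almost (VV β p) (VV β d)) (r s : G) :
    Almost (VV β p) (VV β p ⊔ VV β r ⊔ VV β s) := by
  set A := VV β p with hA
  -- one class for `r` and `s`
  have key : ∃ ρ : B, (∀ b, β r b ∈ A ∨ β r b + ρ ∈ A) ∧ (∀ c, β s c ∈ A ∨ β s c + ρ ∈ A) := by
    by_cases hr : ∀ b, β r b ∈ A
    · by_cases hs : ∀ c, β s c ∈ A
      · exact ⟨0, fun b => Or.inl (hr b), fun c => Or.inl (hs c)⟩
      · push Not at hs
        obtain ⟨c0, hc0⟩ := hs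
        refine ⟨β s c0, fun b => Or.inl (hr b), fun c => ?_⟩
        rcases hp s _ (h.val s c) _ (h.val s c0) with h1 | h1 | h1
        · exact Or.inl h1
        · exact absurd h1 hc0
        · exact Or.inr h1
    · push Not at hr
      obtain ⟨b0, hb0⟩ := hr
      refine ⟨β r b0, fun b => ?_, fun c => ?_⟩
      · rcases hp r _ (h.val r b) _ (h.val r b0) with h1 | h1 | h1
        · exact Or.inl h1
        · exact absurd h1 hb0
        · exact Or.inr h1
      · by_contra hcon
        push Not at hcon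
        obtain ⟨hc1, hc2⟩ := hcon
        obtain ⟨d, hd1, hd2⟩ : ∃ d, β r d ∉ A ∧ β s d ∉ A := by
          by_cases h1 : β s b0 ∈ A
          · by_cases h2 : β r c ∈ A
            · refine ⟨b0 * c, ?_, ?_⟩
              · rw [h.mul]
                intro h3
                exact hb0 ((A.add_mem_cancel_right h2).1 h3)
              · rw [h.mul]
                intro h3
                exact hc1 ((A.add_mem_cancel_left h1).1 h3)
            · exact ⟨c, h2, hc1⟩
          · exact ⟨b0, hb0, h1⟩
        have e1 : β r d + β r b0 ∈ A := by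
          rcases hp r _ (h.val r d) _ (h.val r b0) with h1 | h1 | h1
          · exact absurd h1 hd1
          · exact absurd h1 hb0
          · exact h1
        have e2 : β s d + β s c ∈ A := by
          rcases hp s _ (h.val s d) _ (h.val s c) with h1 | h1 | h1
          · exact absurd h1 hd2
          · exact absurd h1 hc1
          · exact h1
        have e3 : β r d + β s d ∈ A := by
          have m1 : β r d ∈ VV β d := by rw [h.symm]; exact h.val _ _
          have m2 : β s d ∈ VV β d := by rw [h.symm]; exact h.val _ _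
          rcases hp d _ m1 _ m2 with h1 | h1 | h1
          · exact absurd h1 hd1
          · exact absurd h1 hd2
          · exact h1
        apply hc2
        have e4 := A.add_mem (A.add_mem e1 e2) e3
        have e5 : β r d + β r b0 + (β s d + β s c) + (β r d + β s d) =
            (β s c + β r b0) + ((β r d + β r d) + (β s d + β s d)) := by abel
        rw [e5, h.two, h.two, add_zero, add_zero] at e4
        exact e4
  obtain ⟨ρ, hr, hs⟩ := key
  have hin : ∀ u ∈ A ⊔ VV β r ⊔ VV β s, u ∈ A ∨ u + ρ ∈ A := by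
    intro u hu
    obtain ⟨u1, hu1, u2, hu2, rfl⟩ := AddSubgroup.mem_sup.1 hu
    obtain ⟨u3, hu3, u4, hu4, rfl⟩ := AddSubgroup.mem_sup.1 hu1
    obtain ⟨b, rfl⟩ := h.mem.1 hu4
    obtain ⟨c, rfl⟩ := h.mem.1 hu2
    rcases hr b with h1 | h1 <;> rcases hs c with h2 | h2
    · exact Or.inl (A.add_mem (A.add_mem hu3 h1) h2)
    · right
      have := A.add_mem (A.add_mem hu3 h1) h2
      rwa [← add_assoc] at this
    · right
      have := A.add_mem (A.add_mem hu3 h2) h1
      have e : u3 + β s c + (β r b + ρ) = u3 + β r b + β s c + ρ := by abel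
      rwa [e] at this
    · left
      have := A.add_mem (A.add_mem hu3 h1) h2
      have e : u3 + (β r b + ρ) + (β s c + ρ) = (u3 + β r b + β s c) + (ρ + ρ) := by abel
      rwa [e, h.two, add_zero] at this
  intro u hu v hv
  rcases hin u hu with h1 | h1
  · exact Or.inl h1
  rcases hin v hv with h2 | h2
  · exact Or.inr (Or.inl h2)
  right; right
  have := A.add_mem h1 h2
  have e : u + ρ + (v + ρ) = (u + v) + (ρ + ρ) := by abel
  rwa [e, h.two, add_zero] at this

theorem Almost.mono {A C D : AddSubgroup B} (h : Almost A D) (hCD : C ≤ D) : Almost A C :=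
  fun u hu v hv => h u (hCD hu) v (hCD hv)

/-- the smallness condition at `x, y, z` -/
def Small (β : G → G → B) (x y z : G) : Prop :=
  (∀ p : G, p = x ∨ p = y ∨ p = z ∨ p = x * y * z → Nat.card (VV β p) ≤ 4) ∨
  ∃ p : G, (p = x ∨ p = y ∨ p = z ∨ p = x * y * z) ∧
    ∀ u ∈ VV β x ⊔ VV β y ⊔ VV β z, ∀ v ∈ VV β x ⊔ VV β y ⊔ VV β z,
      u ∈ VV β p ∨ v ∈ VV β p ∨ u + v ∈ VV β p

theorem small_of_almost (h : BiSym β)
    (hp : ∀ a, 4 < Nat.card (VV β a) → ∀ d, Almost (VV β a) (VV β d)) (x y z : G) :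
    Small β x y z := by
  by_cases h4 : ∀ p : G, p = x ∨ p = y ∨ p = z ∨ p = x * y * z → Nat.card (VV β p) ≤ 4
  · exact Or.inl h4
  push Not at h4
  obtain ⟨p, hpm, hp4⟩ := h4
  refine Or.inr ⟨p, hpm, ?_⟩
  have key : ∀ r s, VV β x ⊔ VV β y ⊔ VV β z ≤ VV β p ⊔ VV β r ⊔ VV β s →
      Almost (VV β p) (VV β x ⊔ VV β y ⊔ VV β z) := fun r s hle =>
    (triple h (hp p hp4) r s).mono hle
  rcases hpm with rfl | rfl | rfl | rfl
  · exact key y z le_rfl
  · refine key x z ?_
    rw [sup_comm (VV β x)]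
  · refine key x y ?_
    rw [sup_comm, ← sup_assoc]
  · refine key x y ?_
    refine sup_le (sup_le ?_ ?_) ?_
    · exact le_sup_of_le_left le_sup_right
    · exact le_sup_right
    · intro t ht
      obtain ⟨b, rfl⟩ := h.mem.1 ht
      have e : β z b = β (x * y * z) b + β x b + β y b := by
        rw [h.mul', h.mul']
        have : β x b + β y b + β z b + β x b + β y b =
            β z b + ((β x b + β x b) + (β y b + β y b)) := by abel
        rw [this, h.two, h.two, add_zero, add_zero]
      rw [e]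
      exact AddSubgroup.add_mem_sup (AddSubgroup.add_mem_sup (h.val _ _) (h.val _ _)) (h.val _ _)

theorem card_mul (A C : AddSubgroup B) :
    Nat.card A * Nat.card C =
      Nat.card (A ⊔ C : AddSubgroup B) * Nat.card (A ⊓ C : AddSubgroup B) := by
  have h1 := AddSubgroup.relIndex_mul_relIndex ⊥ C (A ⊔ C) bot_le le_sup_right
  have h2 := AddSubgroup.relIndex_mul_relIndex ⊥ (A ⊓ C) A bot_le inf_le_left
  have h3 : (A ⊓ C).relIndex A = C.relIndex (A ⊔ C) := by
    rw [AddSubgroup.inf_relIndex_left, AddSubgroup.relIndex_sup_right]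
  rw [AddSubgroup.relIndex_bot_left, AddSubgroup.relIndex_bot_left] at h1 h2
  rw [← h2, ← h1, h3]
  ring

theorem finite_sup (A C : AddSubgroup B) [Finite A] [Finite C] :
    Finite (A ⊔ C : AddSubgroup B) := by
  let f : A × C → (A ⊔ C : AddSubgroup B) := fun x =>
    ⟨(x.1 : B) + x.2, AddSubgroup.add_mem_sup x.1.2 x.2.2⟩
  refine Finite.of_surjective f ?_
  rintro ⟨t, ht⟩
  obtain ⟨u, hu, v, hv, rfl⟩ := AddSubgroup.mem_sup.1 ht
  exact ⟨(⟨u, hu⟩, ⟨v, hv⟩), rfl⟩

theorem four_le (h2' : ∀ b : B, b + b = 0) {A C : AddSubgroup B}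
    [Finite (A ⊔ C : AddSubgroup B)] (hn : ¬ Almost A C) : 4 ≤ A.relIndex (A ⊔ C) := by
  unfold Almost at hn
  push Not at hn
  obtain ⟨u, hu, v, hv, h1, h2, h3⟩ := hn
  have hneg : ∀ x : B, -x = x := fun x => neg_eq_iff_add_eq_zero.2 (h2' x)
  set T := A ⊔ C with hT
  have huT : u ∈ T := (le_sup_right : C ≤ T) hu
  have hvT : v ∈ T := (le_sup_right : C ≤ T) hv
  by_contra hlt
  push Not at hlt
  let f : Fin 4 → T ⧸ (A.addSubgroupOf T) := ![QuotientAddGroup.mk 0,
    QuotientAddGroup.mk ⟨u, huT⟩, QuotientAddGroup.mk ⟨v, hvT⟩,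
    QuotientAddGroup.mk (⟨u + v, T.add_mem huT hvT⟩)]
  have hfq : Finite (T ⧸ (A.addSubgroupOf T)) := inferInstance
  have hinj : Function.Injective f := by
    have hm : ∀ (x y : T), (QuotientAddGroup.mk x : T ⧸ (A.addSubgroupOf T)) =
        QuotientAddGroup.mk y ↔ -(x : B) + y ∈ A := by
      intro x y
      rw [QuotientAddGroup.eq]
      rfl
    intro i j hij
    fin_cases i <;> fin_cases j <;> first
      | rfl
      | (exfalso
         have hij' := (hm _ _).1 hij
         simp only [AddSubgroup.coe_zero, neg_zero, zero_add, add_zero] at hij'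
         first
           | exact h1 hij'
           | exact h2 hij'
           | exact h3 hij'
           | exact h1 (A.neg_mem_iff.1 hij')
           | exact h2 (A.neg_mem_iff.1 hij')
           | exact h3 (A.neg_mem_iff.1 hij')
           | (rw [neg_add_cancel_left] at hij'; exact h2 hij')
           | (have e : -v + (u + v) = u := by abel
              rw [e] at hij'; exact h1 hij')
           | (have e : -(u + v) + u = -v := by abel
              rw [e] at hij'; exact h2 (A.neg_mem_iff.1 hij'))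
           | (have e : -(u + v) + v = -u := by abel
              rw [e] at hij'; exact h1 (A.neg_mem_iff.1 hij'))
           | (rw [hneg] at hij'; exact h3 hij')
           | (rw [hneg, add_comm] at hij'; exact h3 hij'))
  have := Nat.card_le_card_of_injective f hinj
  rw [Nat.card_fin] at this
  exact absurd (lt_of_le_of_lt this hlt) (lt_irrefl _)

theorem card_mul_relIndex (A C : AddSubgroup B) :
    Nat.card A * A.relIndex (A ⊔ C) = Nat.card (A ⊔ C : AddSubgroup B) := by
  have h1 := AddSubgroup.relIndex_mul_relIndex ⊥ A (A ⊔ C) bot_le le_sup_left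
  rwa [AddSubgroup.relIndex_bot_left, AddSubgroup.relIndex_bot_left] at h1

/-- pairs: all groups `VV a + VV b` have at most sixteen elements -/
theorem almost_of_pairs (h : BiSym β) (hfin : ∀ a b, Finite (VV β a ⊔ VV β b : AddSubgroup B))
    (hc : ∀ a b, Nat.card (VV β a ⊔ VV β b : AddSubgroup B) ≤ 16) :
    ∀ a, 4 < Nat.card (VV β a) → ∀ d, Almost (VV β a) (VV β d) := by
  intro a ha d
  by_contra hcon
  have := hfin a d
  have h1 := four_le h.two hcon
  have h2 := card_mul_relIndex (VV β a) (VV β d)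
  have h3 := hc a d
  rw [← h2] at h3
  nlinarith

theorem card_pow (h2' : ∀ b : B, b + b = 0) (A : AddSubgroup B) [Finite A] :
    ∃ n, Nat.card A = 2 ^ n := by
  have hp : IsPGroup 2 (Multiplicative A) := by
    intro g
    refine ⟨1, ?_⟩
    rw [pow_one, pow_two]
    apply Multiplicative.toAdd.injective
    apply Subtype.ext
    exact h2' _
  obtain ⟨n, hn⟩ := IsPGroup.iff_card.1 hp
  exact ⟨n, hn⟩

/-- at most sixteen values -/
theorem almost_of_values (h : BiSym β) (hfin : (Set.range (fun x : G × G => β x.1 x.2)).Finite)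
    (hc : (Set.range (fun x : G × G => β x.1 x.2)).ncard ≤ 16) :
    ∀ a, 4 < Nat.card (VV β a) → ∀ d, Almost (VV β a) (VV β d) := by
  intro a ha d
  by_contra hcon
  set S := Set.range (fun x : G × G => β x.1 x.2) with hS
  have hsub : ∀ c, (VV β c : Set B) ⊆ S := by
    intro c t ht
    obtain ⟨b, hb⟩ := h.mem.1 ht
    exact ⟨(c, b), hb⟩
  have hf : ∀ c, Finite (VV β c) := fun c => (hfin.subset (hsub c)).to_subtype
  have hle : ∀ p q r : G, (∀ x, β r x = β p x + β q x) → VV β r ≤ VV β p ⊔ VV β q := by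
    intro p q r hr t ht
    obtain ⟨b, rfl⟩ := h.mem.1 ht
    rw [hr]
    exact AddSubgroup.add_mem_sup (h.val _ _) (h.val _ _)
  set A := VV β a with hA
  set C := VV β d with hC
  set E := VV β (a * d) with hE
  have e1 : ∀ x, β (a * d) x = β a x + β d x := fun x => h.mul' a d x
  have e2 : ∀ x, β d x = β a x + β (a * d) x := fun x => by
    rw [e1, ← add_assoc, h.two, zero_add]
  have e3 : ∀ x, β a x = β d x + β (a * d) x := fun x => by
    rw [e1, add_comm (β a x), ← add_assoc, h.two, zero_add]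
  have t1 : A ⊔ E = A ⊔ C :=
    le_antisymm (sup_le le_sup_left (hle _ _ _ e1)) (sup_le le_sup_left (hle _ _ _ e2))
  have t2 : C ⊔ E = A ⊔ C :=
    le_antisymm (sup_le le_sup_right (hle _ _ _ e1)) (sup_le (hle _ _ _ e3) le_sup_left)
  have : Finite A := hf _
  have : Finite C := hf _
  have : Finite E := hf _
  have : Finite (A ⊔ C : AddSubgroup B) := finite_sup A C
  have fin1 : ∀ H K : AddSubgroup B, Finite H → Finite (H ⊓ K : AddSubgroup B) :=
    fun H K hH => Finite.of_injective _ (AddSubgroup.inclusion_injective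
      (inf_le_left : H ⊓ K ≤ H))
  have := fin1 A C ‹_›
  have := fin1 A E ‹_›
  have := fin1 C E ‹_›
  have q1 := card_mul A C
  have q2 := card_mul A E
  have q3 := card_mul C E
  rw [t1] at q2
  rw [t2] at q3
  have q4 := four_le h.two hcon
  have q5 := card_mul_relIndex A C
  obtain ⟨α, hα⟩ := card_pow h.two A
  obtain ⟨γ, hγ⟩ := card_pow h.two C
  obtain ⟨ε, hε⟩ := card_pow h.two E
  obtain ⟨m, hm⟩ := card_pow h.two (A ⊔ C)
  obtain ⟨i, hi⟩ := card_pow h.two (A ⊓ C)
  obtain ⟨j, hj⟩ := card_pow h.two (A ⊓ E)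
  obtain ⟨k, hk⟩ := card_pow h.two (C ⊓ E)
  rw [hα, hγ, hm, hi, ← pow_add, ← pow_add] at q1
  rw [hα, hε, hm, hj, ← pow_add, ← pow_add] at q2
  rw [hγ, hε, hm, hk, ← pow_add, ← pow_add] at q3
  have r1 := Nat.pow_right_injective le_rfl q1
  have r2 := Nat.pow_right_injective le_rfl q2
  have r3 := Nat.pow_right_injective le_rfl q3
  have r4 : α + 2 ≤ m := by
    rw [hα, hm] at q5
    have : 2 ^ (α + 2) ≤ 2 ^ m := by
      rw [← q5, pow_add]
      exact Nat.mul_le_mul le_rfl q4
    exact (Nat.pow_le_pow_iff_right (by norm_num)).1 this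
  have r5 : 3 ≤ α := by
    rw [hα] at ha
    by_contra hlt
    push Not at hlt
    have : 2 ^ α ≤ 2 ^ 2 := Nat.pow_le_pow_right (by norm_num) (by omega)
    omega
  have hcd : ∀ H : AddSubgroup B, (H : Set B).ncard = Nat.card H := fun H =>
    (Nat.card_coe_set_eq (H : Set B)).symm
  have hle4 : ∀ (c : G) (n : ℕ), Nat.card (VV β c) = 2 ^ n → n ≤ 4 := by
    intro c n hn
    have h1 := Set.ncard_le_ncard (hsub c) hfin
    rw [hcd, hn] at h1
    have : 2 ^ n ≤ 2 ^ 4 := h1.trans hc
    exact (Nat.pow_le_pow_iff_right (by norm_num)).1 this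
  have r6 := hle4 a α hα
  have r7 := hle4 d γ hγ
  have r8 := hle4 (a * d) ε hε
  -- inclusion and exclusion
  have fA : (A : Set B).Finite := Set.toFinite _
  have fC : (C : Set B).Finite := Set.toFinite _
  have fE : (E : Set B).Finite := Set.toFinite _
  have u1 := Set.ncard_union_add_ncard_inter (A : Set B) C fA fC
  have u2 := Set.ncard_union_add_ncard_inter ((A : Set B) ∪ C) E (fA.union fC) fE
  have u3 := Set.ncard_union_add_ncard_inter ((A : Set B) ∩ E) ((C : Set B) ∩ E)
    (fA.inter_of_left _) (fC.inter_of_left _)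
  rw [Set.union_inter_distrib_right] at u2
  have u4 : 1 ≤ (((A : Set B) ∩ E) ∩ ((C : Set B) ∩ E)).ncard := by
    rw [Nat.one_le_iff_ne_zero, Ne, Set.ncard_eq_zero ((fA.inter_of_left _).inter_of_left _)]
    exact Set.nonempty_iff_ne_empty.1 ⟨0, ⟨A.zero_mem, E.zero_mem⟩, ⟨C.zero_mem, E.zero_mem⟩⟩
  have u5 : (((A : Set B) ∪ C) ∪ E).ncard ≤ 16 :=
    (Set.ncard_le_ncard (Set.union_subset (Set.union_subset (hsub _) (hsub _)) (hsub _))
      hfin).trans hc
  rw [← AddSubgroup.coe_inf, hcd, hcd, hcd, hα, hγ, hi] at u1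
  rw [hcd, hε] at u2
  rw [← AddSubgroup.coe_inf A E, ← AddSubgroup.coe_inf C E, hcd, hcd, hj, hk] at u3
  rw [← AddSubgroup.coe_inf A E, ← AddSubgroup.coe_inf C E] at u2 u4
  have fin : 2 ^ α + 2 ^ γ + 2 ^ ε + 1 ≤ 16 + 2 ^ i + 2 ^ j + 2 ^ k := by omega
  clear u1 u2 u3 u4 u5 q1 q2 q3 q4 q5
  have hα' : α = 3 ∨ α = 4 := by omega
  obtain rfl : i = α + γ - m := by omega
  obtain rfl : j = α + ε - m := by omega
  obtain rfl : k = γ + ε - m := by omega
  have hm8 : m ≤ 8 := by omega
  rcases hα' with rfl | rfl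
  · interval_cases γ <;> interval_cases ε <;> first | omega | (interval_cases m <;> omega)
  · interval_cases γ <;> interval_cases ε <;> first | omega | (interval_cases m <;> omega)

end Pool.Agent.Q24.EQ
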